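import Mathlib
import Pool.Agent.Lib.MP_c030b7_lc.Defs
import Pool.Agent.Lib.MP_c030b7_lc.Split
import Pool.Agent.Lib.MP_c030b7_lc.Construct

/-!
There is a Mazurkiewicz set which in every direction is a union of two Hamel functions.

The set is `M = H ∪ -H`, where `H` is a Hamel basis of the plane built by transfinite induction.
For a fixed angle, the pairs `{p, -p}` and the pairs of points of the rotated set on a common
vertical line are two perfect matchings of the set, and the union of two perfect matchings is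
2-colourable; each colour class is the graph of a Hamel function.
-/

namespace Pool.Agent.Results.MP_c030b7_lc.SymmetricHamel

open Pool.Agent.MPc030b7

theorem rotPlane_neg (θ : ℝ) (p : ℝ × ℝ) : rotPlane θ (-p) = -rotPlane θ p := by
  ext <;> simp only [rotPlane, Prod.fst_neg, Prod.snd_neg] <;> ring

theorem rotPlane_rotPlane_neg (θ : ℝ) (p : ℝ × ℝ) : rotPlane (-θ) (rotPlane θ p) = p := by
  have h := Real.sin_sq_add_cos_sq θ
  ext
  · simp only [rotPlane, Real.cos_neg, Real.sin_neg]
    linear_combination p.1 * h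
  · simp only [rotPlane, Real.cos_neg, Real.sin_neg]
    linear_combination p.2 * h

theorem rotPlane_neg_rotation (θ : ℝ) (p : ℝ × ℝ) : rotPlane θ (rotPlane (-θ) p) = p := by
  have := rotPlane_rotPlane_neg (-θ) p
  rwa [neg_neg] at this

/-- Rotation as a `ℚ`-linear equivalence. -/
noncomputable def rotEquiv (θ : ℝ) : (ℝ × ℝ) ≃ₗ[ℚ] (ℝ × ℝ) where
  toFun := rotPlane θ
  invFun := rotPlane (-θ)
  map_add' p q := by
    ext <;> simp only [rotPlane, Prod.fst_add, Prod.snd_add] <;> ring
  map_smul' r p := by
    ext <;> simp only [rotPlane, Prod.smul_fst, Prod.smul_snd, Rat.smul_def, RingHom.id_apply] <;>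
      ring
  left_inv := rotPlane_rotPlane_neg θ
  right_inv := rotPlane_neg_rotation θ

theorem isHamelBasis_image {H : Set (ℝ × ℝ)} (hH : IsHamelBasis H) (θ : ℝ) :
    IsHamelBasis (rotPlane θ '' H) := by
  constructor
  · have h1 : LinearIndependent ℚ (fun h : H => rotEquiv θ (h : ℝ × ℝ)) :=
      hH.1.map' (rotEquiv θ).toLinearMap (LinearEquiv.ker _)
    have h2 := h1.linearIndepOn_id
    have h3 : Set.range (fun h : H => rotEquiv θ (h : ℝ × ℝ)) = rotPlane θ '' H := by
      ext p
      constructor
      · rintro ⟨⟨h, hh⟩, rfl⟩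
        exact ⟨h, hh, rfl⟩
      · rintro ⟨h, hh, rfl⟩
        exact ⟨⟨h, hh⟩, rfl⟩
    rw [h3] at h2
    exact h2
  · have h1 : Submodule.map (rotEquiv θ).toLinearMap (Submodule.span ℚ H) =
        Submodule.span ℚ (rotPlane θ '' H) := by
      rw [Submodule.map_span]
      rfl
    rw [← h1, hH.2, Submodule.map_top]
    exact LinearEquiv.range _

/-- **Answer to Q1.** There is a Mazurkiewicz set `M` such that, for every angle `θ`, the rotated
set `ρ_θ(M)` is a union of (the graphs of) two Hamel functions. -/
theorem result : ∃ M : Set (ℝ × ℝ), IsMazurkiewicz M ∧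
    ∀ θ : ℝ, IsUnionOfTwoHamelFunctions (rotPlane θ '' M) := by
  obtain ⟨H, hgood, hdone⟩ := exists_good_complete
  have hH : IsHamelBasis H := by
    refine ⟨hgood.1, ?_⟩
    rw [eq_top_iff]
    intro v _
    exact hdone (Sum.inr v)
  -- the line condition in terms of coefficients
  have hline : ∀ a b c : ℝ, (a ≠ 0 ∨ b ≠ 0) →
      (sym H ∩ {p : ℝ × ℝ | a * p.1 + b * p.2 = c}).encard = 2 := by
    intro a b c hab
    obtain ⟨p, hp, q, hq, hne, hp1, hq1⟩ := hdone (Sum.inl (a, b, c)) hab
    rw [Set.encard_eq_two]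
    refine ⟨p, q, hne, ?_⟩
    apply Set.Subset.antisymm
    · rintro r ⟨hr, hr1⟩
      have hr1' : a * r.1 + b * r.2 = c := hr1
      by_contra hrn
      have hrp : r ≠ p := fun h => hrn (Or.inl h)
      have hrq : r ≠ q := fun h => hrn (Or.inr h)
      apply hgood.2 p hp q hq r hr hne hrq.symm hrp.symm
      have e1 : a * (q.1 - p.1) + b * (q.2 - p.2) = 0 := by linear_combination hq1 - hp1
      have e2 : a * (r.1 - p.1) + b * (r.2 - p.2) = 0 := by linear_combination hr1' - hp1
      simp only [det3]
      rcases hab with ha | hb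
      · have : a * ((q.1 - p.1) * (r.2 - p.2) - (q.2 - p.2) * (r.1 - p.1)) = 0 := by
          linear_combination (r.2 - p.2) * e1 - (q.2 - p.2) * e2
        rcases mul_eq_zero.mp this with h | h
        · exact absurd h ha
        · exact h
      · have : b * ((q.1 - p.1) * (r.2 - p.2) - (q.2 - p.2) * (r.1 - p.1)) = 0 := by
          linear_combination (q.1 - p.1) * e2 - (r.1 - p.1) * e1
        rcases mul_eq_zero.mp this with h | h
        · exact absurd h hb
        · exact h
    · rintro r (rfl | rfl)
      · exact ⟨hp, hp1⟩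
      · exact ⟨hq, hq1⟩
  refine ⟨sym H, ?_, ?_⟩
  · rintro L ⟨a, b, c, hab, rfl⟩
    exact hline a b c hab
  · intro θ
    apply exists_hamel_split (isHamelBasis_image hH θ)
    · intro p
      constructor
      · rintro ⟨q, hq | hq, rfl⟩
        · exact Or.inl ⟨q, hq, rfl⟩
        · exact Or.inr ⟨-q, hq, rotPlane_neg θ q⟩
      · rintro (⟨q, hq, rfl⟩ | ⟨q, hq, hqp⟩)
        · exact ⟨q, Or.inl hq, rfl⟩
        · refine ⟨-q, Or.inr (by rwa [neg_neg]), ?_⟩
          rw [rotPlane_neg, hqp, neg_neg]
    · intro c
      have h1 : rotPlane θ '' sym H ∩ {p : ℝ × ℝ | p.1 = c} =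
          rotPlane θ '' (sym H ∩ {p : ℝ × ℝ | Real.cos θ * p.1 + (-Real.sin θ) * p.2 = c}) := by
        ext p
        constructor
        · rintro ⟨⟨q, hq, rfl⟩, hc⟩
          refine ⟨q, ⟨hq, ?_⟩, rfl⟩
          have : Real.cos θ * q.1 - Real.sin θ * q.2 = c := hc
          change Real.cos θ * q.1 + (-Real.sin θ) * q.2 = c
          rw [← this]; ring
        · rintro ⟨q, ⟨hq, hc⟩, rfl⟩
          refine ⟨⟨q, hq, rfl⟩, ?_⟩
          have : Real.cos θ * q.1 + (-Real.sin θ) * q.2 = c := hc
          change Real.cos θ * q.1 - Real.sin θ * q.2 = c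
          rw [← this]; ring
      have hinj : Function.Injective (rotPlane θ) := (rotEquiv θ).injective
      rw [h1, hinj.encard_image]
      · apply hline
        by_contra h
        push Not at h
        have := Real.sin_sq_add_cos_sq θ
        have h2 : Real.sin θ = 0 := by simpa using h.2
        rw [h.1, h2] at this
        norm_num at this

end Pool.Agent.Results.MP_c030b7_lc.SymmetricHamel
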